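import Pool.Agent.Helper87.GJ.Defs
import Pool.Agent.Helper87.GE.Good

/-!
# GJ, blocks J7b and J7c: continuity of the criterion, Borel-Cantelli
-/

set_option autoImplicit false
open MeasureTheory Set Filter Topology
open Pool.Agent.Helper78.KD
open Pool.Agent.Helper18.KD (par idx pt pt_mono)
open Pool.Agent.Helper82.FK (e)
open Pool.Agent.Helper18.GP (gp nm)
open Pool.Agent.Helper87.GP (Z fz cut continuous_fz continuous_cut cut_nonneg)

namespace Pool.Agent.GJ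

/-- the windows as a finite set -/
noncomputable def j7Wf (r : ℕ) : Finset (ℕ → ℤ) := by
  classical
  exact (Fintype.piFinset (fun _ : Fin r => Finset.Icc (-(r : ℤ)) r)).image
    (fun f i => if h : i < r then f ⟨i, h⟩ else 0)

theorem j7Wf_mem {r : ℕ} {h : ℕ → ℤ} (hh : h ∈ Wn r) : h ∈ j7Wf r := by
  classical
  unfold j7Wf
  refine Finset.mem_image.2 ⟨fun i => h i, ?_, ?_⟩
  · rw [Fintype.mem_piFinset]
    intro i
    exact Finset.mem_Icc.2 (abs_le.1 (hh.1 i))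
  · funext i
    dsimp only
    split_ifs with hi
    · rfl
    · exact (hh.2 i (not_lt.1 hi)).symm

theorem j7Wf_sub {r : ℕ} {h : ℕ → ℤ} (hh : h ∈ j7Wf r) : h ∈ Wn r := by
  classical
  unfold j7Wf at hh
  obtain ⟨f, hf, rfl⟩ := Finset.mem_image.1 hh
  rw [Fintype.mem_piFinset] at hf
  refine ⟨fun i => ?_, fun i hi => ?_⟩
  · dsimp only
    split_ifs with hi
    · exact abs_le.2 (Finset.mem_Icc.1 (hf ⟨i, hi⟩))
    · simp
  · dsimp only
    rw [dif_neg (not_lt.2 hi)]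

theorem j7Wf_card (r : ℕ) : (j7Wf r).card ≤ (2 * r + 1) ^ r := by
  classical
  unfold j7Wf
  refine Finset.card_image_le.trans ?_
  rw [Fintype.card_piFinset, Finset.prod_const, Finset.card_univ, Fintype.card_fin, Int.card_Icc]
  refine le_of_eq ?_
  congr 1
  omega

variable {a : ℝ} {H : ℕ} {c : ℤ → ℂ}

theorem j7_QJ_cont (ha : 1 < a) (Hb : ℕ) (h : ℕ → ℤ) (j J t : ℕ) : Continuous (QJ a H Hb c h j J t) := by
  unfold QJ
  refine continuous_finsetSum _ fun b _ => continuous_const.mul ?_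
  exact (continuous_cut (by positivity)).comp (continuous_fz b)

/-- J7b: continuity of the criterion -/
theorem crit_nearJ {a b : ℝ} {H : ℕ} {c : ℤ → ℂ} (ha : 1 < a) (r J L : ℕ) {ε : ℝ} (hε : 0 < ε) :
    ∃ ρ > 0, ∀ x ∈ Icc a b, ∀ y ∈ Icc a b, |x - y| < ρ →
      (∀ h ∈ Wn r, ∀ j, j + r ≤ L → ∑ t ∈ Finset.range L, QJ a H (H + r) c h j J t x ≤ ε / 2) →
      CritJ a H r c J L ε y := by
  set P : (ℕ → ℤ) × ℕ → ℝ → ℝ := fun p x => ∑ t ∈ Finset.range L, QJ a H (H + r) c p.1 p.2 J t x with hP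
  have hPc : ∀ p, Continuous (P p) := fun p => continuous_finsetSum _ fun t _ => j7_QJ_cont ha _ _ _ _ _
  have hev : ∀ᶠ ρ in 𝓝[>] (0 : ℝ), ∀ p ∈ (j7Wf r) ×ˢ (Finset.range (L + 1)), ∀ x ∈ Icc a b, ∀ y ∈ Icc a b,
      |x - y| < ρ → |P p x - P p y| < ε / 2 := by
    rw [Filter.eventually_all_finset]
    intro p _
    have h1 := (isCompact_Icc (a := a) (b := b)).uniformContinuousOn_of_continuous (hPc p).continuousOn
    rw [Metric.uniformContinuousOn_iff] at h1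
    obtain ⟨ρ, hρ, h2⟩ := h1 (ε / 2) (by positivity)
    filter_upwards [Ioo_mem_nhdsGT hρ] with ρ' hρ' x hx y hy hxy
    have := h2 x hx y hy (by rw [Real.dist_eq]; exact hxy.trans hρ'.2)
    rwa [Real.dist_eq] at this
  obtain ⟨ρ, hρ1, hρ2⟩ := (hev.and self_mem_nhdsWithin).exists
  refine ⟨ρ, hρ2, fun x hx y hy hxy hb h hh j hj => ?_⟩
  have h1 := hρ1 (h, j) (Finset.mem_product.2 ⟨j7Wf_mem hh, Finset.mem_range.2 (by show j < L + 1; omega)⟩) x hx y hy hxy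
  have h2 := hb h hh j hj
  have h3 := abs_lt.1 h1
  simp only [hP] at h3
  linarith [h3.1]

/-- J7c: Borel-Cantelli -/
theorem bcJ {a : ℝ} {H : ℕ} {c : ℤ → ℂ} (ha : 1 < a) {T : Tr} {m : ℕ → ℕ → ℝ} {lam Ψ : ℝ} (hlam0 : 0 < lam) (hΨ : 0 < Ψ)
    {Φ : ℕ → ℝ} (hΦ : ∀ n, 0 < Φ n) {ε : ℕ → ℝ} (hε : ∀ r, 0 < ε r) {U : ℕ → Set ℝ} (hU : ∀ r, IsOpen (U r)) {Jf Lf : ℕ → ℕ}
    (hP : ∀ r : ℕ, (2 * (r : ℝ) + 1) ^ r * ((Lf r : ℝ) + 1) * (2 / ε r) * (Φ r * lam ^ (Jf r)) ≤ (1 / 2) ^ r)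
    (hvol : ∀ r : ℕ, volume {w | w ∈ Ico (0 : ℝ) 1 ∧ pt T m w ∈ U r} ≤ ENNReal.ofReal (Ψ * (1 / 2) ^ r))
    (hint : ∀ r : ℕ, ∀ h ∈ Wn r, ∀ j J L : ℕ,
            ∫⁻ w in {w | w ∈ Ico (0 : ℝ) 1 ∧ pt T m w ∉ U r},
                ENNReal.ofReal (∑ t ∈ Finset.range L, QJ a H (H + r) c h j J t (pt T m w)) ≤
              ENNReal.ofReal (Ψ * Φ r * lam ^ J)) :
    ∀ᵐ w ∂(volume.restrict (Ico (0 : ℝ) 1)), ∀ᶠ r in atTop, ∀ h ∈ Wn r, ∀ j, j + r ≤ Lf r →
      ∑ t ∈ Finset.range (Lf r), QJ a H (H + r) c h j (Jf r) t (pt T m w) ≤ ε r / 2 := by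
  set μ : Measure ℝ := volume.restrict (Ico (0 : ℝ) 1) with hμ
  set F : ℕ → (ℕ → ℤ) × ℕ → ℝ → ℝ := fun r p w => ∑ t ∈ Finset.range (Lf r), QJ a H (H + r) c p.1 p.2 (Jf r) t (pt T m w)
    with hF
  set V : ℕ → Set ℝ := fun r => {w | pt T m w ∈ U r} with hV
  set bad : ℕ → Set ℝ := fun r => V r ∪ ⋃ p ∈ (j7Wf r) ×ˢ (Finset.range (Lf r + 1)), ((V r)ᶜ ∩ {w | ε r / 2 ≤ F r p w}) with hbad
  have hptm : Measurable (pt T m) := pt_mono.measurable
  have hVm : ∀ r, MeasurableSet (V r) := fun r => hptm (hU r).measurableSet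
  have hFm : ∀ r p, Measurable (F r p) := fun r p =>
    ((continuous_finsetSum _ fun t _ => j7_QJ_cont ha _ _ _ _ _).measurable).comp hptm
  have h0 : ∀ r, μ (V r) ≤ ENNReal.ofReal (Ψ * (1 / 2) ^ r) := by
    intro r
    rw [hμ, Measure.restrict_apply (hVm r)]
    refine (le_of_eq ?_).trans (hvol r)
    congr 1
    ext w
    simp only [hV, Set.mem_inter_iff, Set.mem_ofPred_eq]
    exact and_comm
  have h1 : ∀ r, μ (⋃ p ∈ (j7Wf r) ×ˢ (Finset.range (Lf r + 1)), ((V r)ᶜ ∩ {w | ε r / 2 ≤ F r p w})) ≤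
      ENNReal.ofReal (Ψ * (1 / 2) ^ r) := by
    intro r
    have hr := hε r
    have h2 : ∀ p ∈ (j7Wf r) ×ˢ (Finset.range (Lf r + 1)), μ ((V r)ᶜ ∩ {w | ε r / 2 ≤ F r p w}) ≤
        ENNReal.ofReal ((2 / ε r) * (Ψ * Φ r * lam ^ (Jf r))) := by
      intro p hp
      obtain ⟨hp1, -⟩ := Finset.mem_product.1 hp
      have hp2 : p.1 ∈ Wn r := j7Wf_sub hp1
      set A : Set ℝ := {w | w ∈ Ico (0 : ℝ) 1 ∧ pt T m w ∉ U r} with hA
      have hB : MeasurableSet {w | ε r / 2 ≤ F r p w} := measurableSet_le measurable_const (hFm r p)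
      have hEq : μ ((V r)ᶜ ∩ {w | ε r / 2 ≤ F r p w}) = (volume.restrict A) {w | ε r / 2 ≤ F r p w} := by
        rw [hμ, Measure.restrict_apply ((hVm r).compl.inter hB), Measure.restrict_apply hB]
        congr 1
        ext w
        simp only [hV, hA, Set.mem_inter_iff, Set.mem_compl_iff, Set.mem_ofPred_eq]
        tauto
      have h3 := mul_meas_ge_le_lintegral (μ := volume.restrict A) ((hFm r p).ennreal_ofReal) (ENNReal.ofReal (ε r / 2))
      have h4 := hint r p.1 hp2 p.2 (Jf r) (Lf r)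
      have h5 : {w | ε r / 2 ≤ F r p w} ⊆ {w | ENNReal.ofReal (ε r / 2) ≤ ENNReal.ofReal (F r p w)} := fun w hw =>
        ENNReal.ofReal_le_ofReal hw
      have h6 : ENNReal.ofReal (ε r / 2) * (volume.restrict A) {w | ε r / 2 ≤ F r p w} ≤
          ENNReal.ofReal (Ψ * Φ r * lam ^ (Jf r)) :=
        (mul_le_mul_right (measure_mono h5) _).trans (h3.trans h4)
      have h8 : ENNReal.ofReal (2 / ε r) * ENNReal.ofReal (ε r / 2) = 1 := by
        rw [← ENNReal.ofReal_mul (by positivity), ← ENNReal.ofReal_one]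
        congr 1
        field_simp
      rw [hEq]
      calc (volume.restrict A) {w | ε r / 2 ≤ F r p w} =
            (ENNReal.ofReal (2 / ε r) * ENNReal.ofReal (ε r / 2)) * (volume.restrict A) {w | ε r / 2 ≤ F r p w} := by
            rw [h8, one_mul]
        _ = ENNReal.ofReal (2 / ε r) * (ENNReal.ofReal (ε r / 2) * (volume.restrict A) {w | ε r / 2 ≤ F r p w}) :=
            mul_assoc _ _ _
        _ ≤ ENNReal.ofReal (2 / ε r) * ENNReal.ofReal (Ψ * Φ r * lam ^ (Jf r)) := mul_le_mul_right h6 _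
        _ = _ := (ENNReal.ofReal_mul (by positivity)).symm
    have hpos := hΦ r
    calc μ (⋃ p ∈ (j7Wf r) ×ˢ (Finset.range (Lf r + 1)), ((V r)ᶜ ∩ {w | ε r / 2 ≤ F r p w})) ≤
          ∑ p ∈ (j7Wf r) ×ˢ (Finset.range (Lf r + 1)), μ ((V r)ᶜ ∩ {w | ε r / 2 ≤ F r p w}) :=
          measure_biUnion_finset_le _ _
      _ ≤ ∑ p ∈ (j7Wf r) ×ˢ (Finset.range (Lf r + 1)), ENNReal.ofReal ((2 / ε r) * (Ψ * Φ r * lam ^ (Jf r))) :=
          Finset.sum_le_sum h2
      _ = ENNReal.ofReal (∑ p ∈ (j7Wf r) ×ˢ (Finset.range (Lf r + 1)), (2 / ε r) * (Ψ * Φ r * lam ^ (Jf r))) := by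
          rw [ENNReal.ofReal_sum_of_nonneg]
          intro p _
          positivity
      _ ≤ _ := by
          refine ENNReal.ofReal_le_ofReal ?_
          rw [Finset.sum_const, Finset.card_product, Finset.card_range, nsmul_eq_mul]
          have h9 := mul_le_mul_of_nonneg_left (hP r) hΨ.le
          have h10 : ((j7Wf r).card : ℝ) ≤ (2 * (r : ℝ) + 1) ^ r := by exact_mod_cast j7Wf_card r
          push_cast
          calc ((j7Wf r).card : ℝ) * ((Lf r : ℝ) + 1) * (2 / ε r * (Ψ * Φ r * lam ^ Jf r)) ≤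
                (2 * (r : ℝ) + 1) ^ r * ((Lf r : ℝ) + 1) * (2 / ε r * (Ψ * Φ r * lam ^ Jf r)) := by gcongr
            _ = Ψ * ((2 * (r : ℝ) + 1) ^ r * ((Lf r : ℝ) + 1) * (2 / ε r) * (Φ r * lam ^ (Jf r))) := by ring
            _ ≤ _ := h9
  have h2 : ∀ r, μ (bad r) ≤ ENNReal.ofReal (2 * Ψ * (1 / 2) ^ r) := by
    intro r
    refine (measure_union_le _ _).trans ((add_le_add (h0 r) (h1 r)).trans (le_of_eq ?_))
    rw [← ENNReal.ofReal_add (by positivity) (by positivity)]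
    congr 1
    ring
  have h11 : ∑' r, μ (bad r) ≠ ⊤ := by
    have h12 : Summable fun r : ℕ => 2 * Ψ * (1 / 2 : ℝ) ^ r :=
      (summable_geometric_of_lt_one (by norm_num) (by norm_num)).mul_left (2 * Ψ)
    refine ne_top_of_le_ne_top ?_ (ENNReal.tsum_le_tsum h2)
    rw [← ENNReal.ofReal_tsum_of_nonneg (fun r => by positivity) h12]
    exact ENNReal.ofReal_ne_top
  have h13 := ae_eventually_notMem h11
  filter_upwards [h13] with w hw
  filter_upwards [hw] with r hr h hh j hj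
  by_contra hcon
  push Not at hcon
  refine hr ?_
  by_cases hwV : w ∈ V r
  · exact Or.inl hwV
  · refine Or.inr ?_
    simp only [Set.mem_iUnion]
    exact ⟨(h, j), Finset.mem_product.2 ⟨j7Wf_mem hh, Finset.mem_range.2 (by show j < Lf r + 1; omega)⟩, hwV, hcon.le⟩

end Pool.Agent.GJ
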